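import Pool.Agent.H547R7.Asm
import Pool.Agent.H547R7.T_ALG
import Pool.Agent.H547R7.T_ALS
import Pool.Agent.H547R7.T_CHE
import Pool.Agent.H547R7.T_COR
import Pool.Agent.H547R7.T_CPX
import Pool.Agent.H547R7.T_DUA
import Pool.Agent.H547R7.T_EAS
import Pool.Agent.H547R7.T_EXP
import Pool.Agent.H547R7.T_FOO
import Pool.Agent.H547R7.T_GAD
import Pool.Agent.H547R7.T_L0
import Pool.Agent.H547R7.T_L1A
import Pool.Agent.H547R7.T_L1P
import Pool.Agent.H547R7.T_L2
import Pool.Agent.H547R7.T_L3
import Pool.Agent.H547R7.T_MOD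
import Pool.Agent.H547R7.T_ORG
import Pool.Agent.H547R7.T_PRJ
import Pool.Agent.H547R7.T_SAM
import Pool.Agent.H547R7.T_SLI
import Pool.Agent.H547R7.T_THR
import Pool.Agent.H547R7.T_TST
import Pool.Agent.H547R7.T_XOR

/-!
# Logarithmic-seed generators against circuits over sets of Boolean functions: a dichotomy

`LogGen T ε`: there is a logarithmic-seed generator against the tests `T m` (on `m` bits) with
advantage at most `ε m`.  If the gate set `B` consists of affine functions, or of conjunctions, or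
of disjunctions, or of self-dual functions, then one explicit generator fools the circuits over `B`.
For every other finite gate set, in particular for monotone circuits, the question whether there
is a logarithmic-seed generator is equivalent to the question for all circuits.
-/

set_option autoImplicit false

namespace Pool.Agent.Results.MP_ca1109_lc.GateSetDichotomy

open Pool.Agent.NPC Pool.Agent.H547R6 Pool.Agent.H547R7 Pool.Agent.H424R2.PPAD

/-- **Dichotomy for logarithmic-seed generators over gate sets.** -/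
theorem result :
    LogGen (fun m => {C | ∃ (B : Set BFun) (s : ℕ),
      (B ⊆ Aff ∨ B ⊆ Conj ∨ B ⊆ Disj ∨ B ⊆ SelfDual) ∧ Computes B m s C}) (fun m => 1 / m) ∧
    ∀ B : Set BFun, B.Finite → ¬ B ⊆ Aff → ¬ B ⊆ Conj → ¬ B ⊆ Disj → ¬ B ⊆ SelfDual →
      ∀ ε : ℝ, 0 < ε → ε < 1 / 6 →
        (LogGen (fun m => {C | Computes B m m C}) (fun _ => ε) ↔
          LogGen (fun m => {C | Comp0 m m C}) (fun _ => 1 / 8)) := by
  have hl0 : S_L0 := t_L0 t_PRJ
  have hsli : S_SLI := t_SLI t_THR
  have htst : S_TST := t_TST t_THR hsli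
  exact main_of t_CLO (t_L1A t_PRJ t_ALS t_MOD t_GAD (t_COR t_CHE t_EXP) (t_CPX htst) t_L1P)
    (t_L2 hl0 t_SAM t_XOR t_THR) (t_L3 hl0 t_ORG) t_DUA (t_EAS t_ALG t_FOO)

end Pool.Agent.Results.MP_ca1109_lc.GateSetDichotomy
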