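import Pool.Agent.H157R2.GM.NonNullG
import Pool.Agent.H201R2.PG.NullG
import Pool.Agent.H188R2.PG.P4
import Pool.Agent.H279R2.PG.Chern
import Pool.Agent.H880R3.PG.Short
import Pool.Agent.H862R2.PG.Count
import Pool.Agent.H930R3.PG.Gmod
import Pool.Agent.H620R2.Gauge2.Null

/-!
# How many oracles forbid pseudorandom generators with logarithmic seed?

For every gauge `f`, the set of the oracles `A` relative to which there is no polynomial-time
computable generator with logarithmic seed against circuits with `A`-gates is a null set for `f` if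
and only if, for some constant `C`, for all large `N` there is `N' ≥ N` with
`f N' ≤ (log N) ^ C`.
-/

namespace Pool.Agent.Results.MP_ca1109_lc.GaugeThreshold

open Pool.Agent.NPC Pool.Agent.H620R2.Gauge Pool.Agent.H752.PG Filter

theorem result (f : ℕ → ℝ) :
    Null f {A : Oracle | ¬ LogGen A} ↔
      ∃ C : ℕ, ∀ᶠ N : ℕ in atTop, ∃ N' ≥ N, f N' ≤ (Real.logb 2 N) ^ C := by
  constructor
  · intro hn
    by_contra hcon
    exact t_nonnullG (t_gmod t_short) f hcon hn
  · exact fun hf => t_nullG t_count t_short t_chern t_gen f hf

end Pool.Agent.Results.MP_ca1109_lc.GaugeThreshold
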