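import Pool.Agent.H529R2.MF.Hard

/-!
# Fooling monotone circuits: the critical advantage is 1/2

The generator with one-bit seeds and outputs `0^m`, `1^m` has advantage at most `1/2 - 2^{-m}`
against every monotone circuit.  Any generator with logarithmic seeds whose advantage against
monotone circuits of size `m` is at most `1/2 - 2^{-m^{1/3}}` (for instance `0.49`) gives hitting
sets for all circuits and a language in E that requires circuits of exponential size, and hence
settles the question about logarithmic-seed generators against all circuits.
-/

namespace Pool.Agent.Results.MP_ca1109_lc.MonotoneThreshold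

open Pool.Agent.H529R2.MF

/-- (1) Some logarithmic-seed generator has, for all large `m`, advantage at most `1/2 - 2^{-m}`
against all monotone circuits with at most `m` gates on `m` inputs.

(2) If some logarithmic-seed generator has, for all large `m`, advantage at most
`1/2 - 2^{-m^{1/3}}` against all monotone circuits with at most `m` gates on `m` inputs, then
some logarithmic-seed generator hits, for all large `m`, all circuits of size at most `m` on `m`
inputs which accept at least half of their inputs, and some language decidable in time `2^{O(n)}`
requires circuits of size `2^{Ω(n)}`. -/
theorem result : FoolsMonotone (fun m => (2 : ℝ) ^ (-(m : ℝ))) ∧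
    (FoolsMonotone (fun m => (2 : ℝ) ^ (-((m : ℝ) ^ ((1 : ℝ) / 3)))) → HitsAll ∧ HardE) :=
  ⟨foolsMonotone_G1, fun h => ⟨hitsAll_of_foolsMonotone h,
    hardE_of_hitsAll (hitsAll_of_foolsMonotone h)⟩⟩

end Pool.Agent.Results.MP_ca1109_lc.MonotoneThreshold
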